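import Pool.Agent.H82.EUC.Stmts4

set_option autoImplicit false

namespace Pool.EUC

private lemma ge1_hconv {n : ℕ} (I : Inst n) (m : Fin n) (r : ℝ) : Convex ℝ (hseg I m r) :=
  (convex_Icc _ _).prod (convex_singleton _)

private lemma ge1_vconv {n : ℕ} (I : Inst n) (w : Fin n) (r : ℝ) : Convex ℝ (vseg I w r) :=
  (convex_singleton _).prod (convex_Icc _ _)

private lemma ge1_join {S F : Set (ℝ × ℝ)} (hS : Convex ℝ S) (h : S ⊆ F) {x y : ℝ × ℝ}
    (hx : x ∈ S) (hy : y ∈ S) : JoinedIn F x y :=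
  ((hS.isPathConnected ⟨x, hx⟩).joinedIn x hx y hy).mono h

private lemma ge1_hmem {n : ℕ} (I : Inst n) (m : Fin n) (r x : ℝ) (h : |I.prefM m - x| ≤ r) :
    (x, I.posM m) ∈ hseg I m r := by
  have h1 := abs_le.1 h
  exact ⟨⟨by linarith [h1.2], by linarith [h1.1]⟩, rfl⟩

private lemma ge1_vmem {n : ℕ} (I : Inst n) (w : Fin n) (r y : ℝ) (h : |I.prefW w - y| ≤ r) :
    (I.posW w, y) ∈ vseg I w r := by
  have h1 := abs_le.1 h
  exact ⟨rfl, ⟨by linarith [h1.2], by linarith [h1.1]⟩⟩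

theorem ge1_thm : GE1_S := by
  intro n I μ ν hne hW hC
  have hH : ∀ m, μ m ≠ ν m → hseg I m (I.dM m (ν m)) ⊆ figure I μ ν :=
    fun m hm p hp => Or.inl ⟨m, hm, hp⟩
  have hV : ∀ w, μ.symm w ≠ ν.symm w → vseg I w (I.dW w (μ.symm w)) ⊆ figure I μ ν :=
    fun w hw p hp => Or.inr ⟨w, hw, hp⟩
  constructor
  · have h1 : figure I μ ν = (⋃ m ∈ {m | μ m ≠ ν m}, hseg I m (I.dM m (ν m))) ∪
        ⋃ w ∈ {w | μ.symm w ≠ ν.symm w}, vseg I w (I.dW w (μ.symm w)) := by
      ext p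
      simp only [figure, Set.mem_union, Set.mem_iUnion, Set.mem_ofPred_eq, exists_prop]
    rw [h1]
    refine IsCompact.union ?_ ?_
    · exact (Set.toFinite _).isCompact_biUnion fun m _ => isCompact_Icc.prod isCompact_singleton
    · exact (Set.toFinite _).isCompact_biUnion fun w _ => isCompact_singleton.prod isCompact_Icc
  · obtain ⟨m0, hm0⟩ : ∃ m, μ m ≠ ν m := by
      by_contra h
      push Not at h
      exact hne (Equiv.ext h)
    have hc : ∀ m r, 0 ≤ r → (I.prefM m, I.posM m) ∈ hseg I m r := by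
      intro m r hr
      exact ge1_hmem I m r _ (by simpa using hr)
    have hd : ∀ m w, 0 ≤ I.dM m w := fun m w => abs_nonneg _
    have hadj : ∀ m w, Adj I.dM I.dW μ ν m w →
        (I.posW w, I.posM m) ∈ hseg I m (I.dM m (ν m)) ∧
        (I.posW w, I.posM m) ∈ vseg I w (I.dW w (μ.symm w)) := by
      intro m w h
      exact ⟨ge1_hmem I m _ _ h.2.2.1, ge1_vmem I w _ _ h.2.2.2⟩
    have hstep : ∀ m m', RR I.dM I.dW μ ν m m' →
        JoinedIn (figure I μ ν) (I.prefM m, I.posM m) (I.prefM m', I.posM m') := by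
      rintro m m' ⟨w, h1, h2⟩
      have e1 := hadj m w h1
      have e2 := hadj m' w h2
      have j1 := ge1_join (ge1_hconv I m _) (hH m h1.1) (hc m _ (hd m (ν m))) e1.1
      have j2 := ge1_join (ge1_vconv I w _) (hV w h1.2.1) e1.2 e2.2
      have j3 := ge1_join (ge1_hconv I m' _) (hH m' h2.1) e2.1 (hc m' _ (hd m' (ν m')))
      exact (j1.trans j2).trans j3
    have hself : JoinedIn (figure I μ ν) (I.prefM m0, I.posM m0) (I.prefM m0, I.posM m0) :=
      JoinedIn.refl (hH m0 hm0 (hc m0 _ (hd m0 (ν m0))))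
    have hall : ∀ m, Relation.ReflTransGen (RR I.dM I.dW μ ν) m0 m →
        JoinedIn (figure I μ ν) (I.prefM m0, I.posM m0) (I.prefM m, I.posM m) := by
      intro m h
      induction h with
      | refl => exact hself
      | tail _ h2 ih => exact ih.trans (hstep _ _ h2)
    refine ⟨(I.prefM m0, I.posM m0), hH m0 hm0 (hc m0 _ (hd m0 (ν m0))), ?_⟩
    rintro p (⟨m, hm, hp⟩ | ⟨w, hw, hp⟩)
    · exact (hall m (hC m0 m hm0 hm)).trans
        (ge1_join (ge1_hconv I m _) (hH m hm) (hc m _ (hd m (ν m))) hp)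
    · have hm : μ (ν.symm w) ≠ ν (ν.symm w) := by
        intro h
        rw [Equiv.apply_symm_apply] at h
        exact hw ((Equiv.symm_apply_eq μ).2 h.symm)
      have h1 : (I.posW w, I.posM (ν.symm w)) ∈
          hseg I (ν.symm w) (I.dM (ν.symm w) (ν (ν.symm w))) := by
        refine ge1_hmem I _ _ _ ?_
        rw [Equiv.apply_symm_apply]
        exact le_refl _
      have h2 : (I.posW w, I.posM (ν.symm w)) ∈ vseg I w (I.dW w (μ.symm w)) :=
        ge1_vmem I w _ _ (hW w)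
      have j1 := ge1_join (ge1_hconv I _ _) (hH _ hm) (hc _ _ (hd _ _)) h1
      have j2 := ge1_join (ge1_vconv I w _) (hV w hw) h2 hp
      exact ((hall _ (hC m0 _ hm0 hm)).trans j1).trans j2

end Pool.EUC
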