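import Pool.Agent.H82.EUC.Stmts6

set_option autoImplicit false

namespace Pool.EUC

private lemma gs1_hconv {n : ℕ} (I : SP n) (m : Fin n) (r : ℝ) : Convex ℝ (hsegS I m r) :=
  convex_convexHull ℝ _

private lemma gs1_vconv {n : ℕ} (I : SP n) (w : Fin n) (r : ℝ) : Convex ℝ (vsegS I w r) :=
  convex_convexHull ℝ _

private lemma gs1_hcomp {n : ℕ} (I : SP n) (m : Fin n) (r : ℝ) : IsCompact (hsegS I m r) := by
  refine Set.Finite.isCompact_convexHull ℝ (((Set.finite_range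
    fun w : Fin n => (I.posW w, I.posM m)).subset ?_))
  rintro p ⟨w, _, rfl⟩
  exact ⟨w, rfl⟩

private lemma gs1_vcomp {n : ℕ} (I : SP n) (w : Fin n) (r : ℝ) : IsCompact (vsegS I w r) := by
  refine Set.Finite.isCompact_convexHull ℝ (((Set.finite_range
    fun m : Fin n => (I.posW w, I.posM m)).subset ?_))
  rintro p ⟨m, _, rfl⟩
  exact ⟨m, rfl⟩

private lemma gs1_join {S F : Set (ℝ × ℝ)} (hS : Convex ℝ S) (h : S ⊆ F) {x y : ℝ × ℝ}
    (hx : x ∈ S) (hy : y ∈ S) : JoinedIn F x y :=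
  ((hS.isPathConnected ⟨x, hx⟩).joinedIn x hx y hy).mono h

private lemma gs1_hmem {n : ℕ} (I : SP n) (m w : Fin n) (r : ℝ) (h : I.dM m w ≤ r) :
    (I.posW w, I.posM m) ∈ hsegS I m r :=
  subset_convexHull ℝ _ ⟨w, h, rfl⟩

private lemma gs1_vmem {n : ℕ} (I : SP n) (w m : Fin n) (r : ℝ) (h : I.dW w m ≤ r) :
    (I.posW w, I.posM m) ∈ vsegS I w r :=
  subset_convexHull ℝ _ ⟨m, h, rfl⟩

theorem gs1_thm : GS1_S := by
  intro n I μ ν hne hW hC
  have hH : ∀ m, μ m ≠ ν m → hsegS I m (I.dM m (ν m)) ⊆ figureS I μ ν :=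
    fun m hm p hp => Or.inl ⟨m, hm, hp⟩
  have hV : ∀ w, μ.symm w ≠ ν.symm w → vsegS I w (I.dW w (μ.symm w)) ⊆ figureS I μ ν :=
    fun w hw p hp => Or.inr ⟨w, hw, hp⟩
  constructor
  · have h1 : figureS I μ ν = (⋃ m ∈ {m | μ m ≠ ν m}, hsegS I m (I.dM m (ν m))) ∪
        ⋃ w ∈ {w | μ.symm w ≠ ν.symm w}, vsegS I w (I.dW w (μ.symm w)) := by
      ext p
      simp only [figureS, Set.mem_union, Set.mem_iUnion, Set.mem_ofPred_eq, exists_prop]
    rw [h1]
    refine IsCompact.union ?_ ?_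
    · exact (Set.toFinite _).isCompact_biUnion fun m _ => gs1_hcomp I m _
    · exact (Set.toFinite _).isCompact_biUnion fun w _ => gs1_vcomp I w _
  · obtain ⟨m0, hm0⟩ : ∃ m, μ m ≠ ν m := by
      by_contra h
      push Not at h
      exact hne (Equiv.ext h)
    have hc : ∀ m, (I.posW (ν m), I.posM m) ∈ hsegS I m (I.dM m (ν m)) := fun m =>
      gs1_hmem I m (ν m) _ (le_refl _)
    have hadj : ∀ m w, Adj I.dM I.dW μ ν m w →
        (I.posW w, I.posM m) ∈ hsegS I m (I.dM m (ν m)) ∧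
        (I.posW w, I.posM m) ∈ vsegS I w (I.dW w (μ.symm w)) := by
      intro m w h
      exact ⟨gs1_hmem I m w _ h.2.2.1, gs1_vmem I w m _ h.2.2.2⟩
    have hstep : ∀ m m', RR I.dM I.dW μ ν m m' →
        JoinedIn (figureS I μ ν) (I.posW (ν m), I.posM m) (I.posW (ν m'), I.posM m') := by
      rintro m m' ⟨w, h1, h2⟩
      have e1 := hadj m w h1
      have e2 := hadj m' w h2
      have j1 := gs1_join (gs1_hconv I m _) (hH m h1.1) (hc m) e1.1
      have j2 := gs1_join (gs1_vconv I w _) (hV w h1.2.1) e1.2 e2.2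
      have j3 := gs1_join (gs1_hconv I m' _) (hH m' h2.1) e2.1 (hc m')
      exact (j1.trans j2).trans j3
    have hself : JoinedIn (figureS I μ ν) (I.posW (ν m0), I.posM m0) (I.posW (ν m0), I.posM m0) :=
      JoinedIn.refl (hH m0 hm0 (hc m0))
    have hall : ∀ m, Relation.ReflTransGen (RR I.dM I.dW μ ν) m0 m →
        JoinedIn (figureS I μ ν) (I.posW (ν m0), I.posM m0) (I.posW (ν m), I.posM m) := by
      intro m h
      induction h with
      | refl => exact hself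
      | tail _ h2 ih => exact ih.trans (hstep _ _ h2)
    refine ⟨(I.posW (ν m0), I.posM m0), hH m0 hm0 (hc m0), ?_⟩
    rintro p (⟨m, hm, hp⟩ | ⟨w, hw, hp⟩)
    · exact (hall m (hC m0 m hm0 hm)).trans
        (gs1_join (gs1_hconv I m _) (hH m hm) (hc m) hp)
    · have hm : μ (ν.symm w) ≠ ν (ν.symm w) := by
        intro h
        rw [Equiv.apply_symm_apply] at h
        exact hw ((Equiv.symm_apply_eq μ).2 h.symm)
      have h1 : (I.posW w, I.posM (ν.symm w)) ∈
          hsegS I (ν.symm w) (I.dM (ν.symm w) (ν (ν.symm w))) := by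
        refine gs1_hmem I _ _ _ ?_
        rw [Equiv.apply_symm_apply]
      have h2 : (I.posW w, I.posM (ν.symm w)) ∈ vsegS I w (I.dW w (μ.symm w)) :=
        gs1_vmem I w _ _ (hW w)
      have j1 := gs1_join (gs1_hconv I _ _) (hH _ hm) (hc _) h1
      have j2 := gs1_join (gs1_vconv I w _) (hV w hw) h2 hp
      exact ((hall _ (hC m0 _ hm0 hm)).trans j1).trans j2

end Pool.EUC
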